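import Mathlib
import Pool.Agent.R866.EUS.Exist

/-!
# MP_b3e27a_co: maximum Euler Sombor index of chemical unicyclic graphs

For every `n ≥ 3` the maximum of the Euler Sombor index over the connected graphs on `n`
vertices with `n` edges and maximum degree at most `4` is the explicit number `M n`, and the
graphs attaining it are exactly those described by `Ext n` (definitions in
`Pool.Agent.R866.EUS.Defs`).

Proof. With vertex potentials `psi 1 = √21 - 2√3`, `psi 2 = 2√7 - 2√3`, `psi 3 = √37 - 2√3`,
`psi 4 = 2√3` one has `f (i, j) ≤ psi i + psi j` with equality exactly if `i = 4` or `j = 4`.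
Summing over the edges and using the two linear relations between the numbers of vertices of
degrees `1, 2, 3, 4` gives
`EUS = A n / 3 - L2 * n_2 - L3 * n_3 - (slack)`; since `n ≡ n_2 + 2 n_3 (mod 3)` this decides
all `n` except `3, 4, 5, 6, 8`, for which one uses that the vertices of degree at least two
number at least three, and form a triangle if there are exactly three of them.
-/

namespace Pool.Agent.Results.MP_b3e27a_co.MaxEulerSombor

open Pool.Agent.R866.EUS

theorem result (n : ℕ) (hn : 3 ≤ n) :
    IsGreatest {x : ℝ | ∃ G : SimpleGraph (Fin n), ChemUni G ∧ EUS G = x} (M n) ∧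
    ∀ G : SimpleGraph (Fin n), ChemUni G → (EUS G = M n ↔ Ext n G) := by
  have hup : ∀ G : SimpleGraph (Fin n), ChemUni G →
      EUS G ≤ M n ∧ (EUS G = M n ↔ Ext n G) := by
    intro G hG
    have h := upper G hG (by rw [Fintype.card_fin]; exact hn)
    rwa [Fintype.card_fin] at h
  refine ⟨⟨?_, ?_⟩, fun G hG => (hup G hG).2⟩
  · obtain ⟨G, hG, hE⟩ := exists_ext hn
    exact ⟨G, hG, (hup G hG).2.mpr hE⟩
  · rintro x ⟨G, hG, rfl⟩
    exact (hup G hG).1

end Pool.Agent.Results.MP_b3e27a_co.MaxEulerSombor
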